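import Mathlib
import Pool.Agent.W793.SCH.Stm2

/-!
# Project SCH (helper793): the covariance of the field strength on the torus

The lemmas on forms are those of `Pool.Agent.W793.YM.Forms`.
-/

namespace Pool.Agent.W314.SCH

open Pool.Agent.W793.SCH

set_option linter.unusedSectionVars false
set_option linter.unusedVariables false

noncomputable section

variable {d l : ℕ} [NeZero l]

lemma sum_shift (z : St d l) (f : St d l → ℝ) : ∑ x, f (x + z) = ∑ x, f x :=
  Equiv.sum_comp (Equiv.addRight z) f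

lemma ip2_comm (f g : St d l → ℝ) : ip2 f g = ip2 g f := by
  unfold ip2; exact Finset.sum_congr rfl fun x _ => mul_comm _ _

lemma ip2_Dp (i : Fin d) (f g : St d l → ℝ) : ip2 (Dp i f) g = ip2 f (Dm i g) := by
  unfold ip2 Dp Dm
  have h1 : ∑ x, f (x + eT i) * g x = ∑ x, f x * g (x - eT i) := by
    rw [← sum_shift (eT i) (fun x => f x * g (x - eT i))]
    refine Finset.sum_congr rfl fun x _ => ?_
    rw [add_sub_cancel_right]
  simp only [sub_mul, mul_sub, Finset.sum_sub_distrib]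
  rw [h1]

lemma ip2_Dm (i : Fin d) (f g : St d l → ℝ) : ip2 (Dm i f) g = ip2 f (Dp i g) := by
  rw [ip2_comm, ← ip2_Dp, ip2_comm]

lemma Dp_comm (i j : Fin d) (f : St d l → ℝ) : Dp i (Dp j f) = Dp j (Dp i f) := by
  funext x
  unfold Dp
  rw [add_right_comm x (eT i) (eT j)]; ring

lemma Dp_Dm (i j : Fin d) (f : St d l → ℝ) : Dp i (Dm j f) = Dm j (Dp i f) := by
  funext x
  unfold Dp Dm
  have : x + eT i - eT j = x - eT j + eT i := by abel
  rw [this]; ring

lemma Dm_comm (i j : Fin d) (f : St d l → ℝ) : Dm i (Dm j f) = Dm j (Dm i f) := by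
  funext x
  unfold Dm
  rw [sub_right_comm x (eT i) (eT j)]; ring

lemma Dp_add (i : Fin d) (f g : St d l → ℝ) : Dp i (f + g) = Dp i f + Dp i g := by
  funext x; simp only [Dp, Pi.add_apply]; ring

lemma Dp_sub (i : Fin d) (f g : St d l → ℝ) : Dp i (f - g) = Dp i f - Dp i g := by
  funext x; simp only [Dp, Pi.sub_apply]; ring

lemma Dp_neg (i : Fin d) (f : St d l → ℝ) : Dp i (-f) = -Dp i f := by
  funext x; simp only [Dp, Pi.neg_apply]; ring

lemma Dp_smul (i : Fin d) (c : ℝ) (f : St d l → ℝ) : Dp i (c • f) = c • Dp i f := by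
  funext x; simp only [Dp, Pi.smul_apply, smul_eq_mul]; ring

lemma Dp_sum {ι : Type*} (s : Finset ι) (i : Fin d) (f : ι → St d l → ℝ) :
    Dp i (∑ k ∈ s, f k) = ∑ k ∈ s, Dp i (f k) := by
  funext x; simp only [Dp, Finset.sum_apply, Finset.sum_sub_distrib]

lemma Dm_add (i : Fin d) (f g : St d l → ℝ) : Dm i (f + g) = Dm i f + Dm i g := by
  funext x; simp only [Dm, Pi.add_apply]; ring

lemma Dm_sub (i : Fin d) (f g : St d l → ℝ) : Dm i (f - g) = Dm i f - Dm i g := by
  funext x; simp only [Dm, Pi.sub_apply]; ring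

lemma Dm_neg (i : Fin d) (f : St d l → ℝ) : Dm i (-f) = -Dm i f := by
  funext x; simp only [Dm, Pi.neg_apply]; ring

lemma Dm_smul (i : Fin d) (c : ℝ) (f : St d l → ℝ) : Dm i (c • f) = c • Dm i f := by
  funext x; simp only [Dm, Pi.smul_apply, smul_eq_mul]; ring

lemma Dm_sum {ι : Type*} (s : Finset ι) (i : Fin d) (f : ι → St d l → ℝ) :
    Dm i (∑ k ∈ s, f k) = ∑ k ∈ s, Dm i (f k) := by
  funext x; simp only [Dm, Finset.sum_apply, Finset.sum_sub_distrib]

lemma ip2_add_left (f g h : St d l → ℝ) : ip2 (f + g) h = ip2 f h + ip2 g h := by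
  unfold ip2; simp only [Pi.add_apply, add_mul, Finset.sum_add_distrib]

lemma ip2_sub_left (f g h : St d l → ℝ) : ip2 (f - g) h = ip2 f h - ip2 g h := by
  unfold ip2; simp only [Pi.sub_apply, sub_mul, Finset.sum_sub_distrib]

lemma ip2_neg_left (f h : St d l → ℝ) : ip2 (-f) h = -ip2 f h := by
  unfold ip2; simp only [Pi.neg_apply, neg_mul, Finset.sum_neg_distrib]

lemma ip2_smul_left (c : ℝ) (f h : St d l → ℝ) : ip2 (c • f) h = c * ip2 f h := by
  unfold ip2; simp only [Pi.smul_apply, smul_eq_mul, Finset.mul_sum, mul_assoc]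

lemma ip2_add_right (f g h : St d l → ℝ) : ip2 f (g + h) = ip2 f g + ip2 f h := by
  rw [ip2_comm, ip2_add_left, ip2_comm g, ip2_comm h]

lemma ip2_sub_right (f g h : St d l → ℝ) : ip2 f (g - h) = ip2 f g - ip2 f h := by
  rw [ip2_comm, ip2_sub_left, ip2_comm g, ip2_comm h]

lemma ip2_sum_left {ι : Type*} (s : Finset ι) (f : ι → St d l → ℝ) (g : St d l → ℝ) :
    ip2 (∑ k ∈ s, f k) g = ∑ k ∈ s, ip2 (f k) g := by
  unfold ip2
  simp only [Finset.sum_apply, Finset.sum_mul]
  exact Finset.sum_comm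

lemma ip2_sum_right {ι : Type*} (s : Finset ι) (f : ι → St d l → ℝ) (g : St d l → ℝ) :
    ip2 g (∑ k ∈ s, f k) = ∑ k ∈ s, ip2 g (f k) := by
  rw [ip2_comm, ip2_sum_left]
  exact Finset.sum_congr rfl fun k _ => ip2_comm _ _

/-- antisymmetric -/
def Asy (f : Fm d l) : Prop := ∀ j k, f j k = -f k j

/-- the coexact part of minus the Laplace operator -/
def cx (u : Fm d l) : Fm d l := fun j k => lap (u j k) - d1 (ds2 u) j k

lemma d1_asy (a : Fin d → St d l → ℝ) : Asy (d1 a) := fun j k => by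
  unfold d1; abel

lemma lap_neg (f : St d l → ℝ) : lap (-f) = -lap f := by
  unfold lap; simp only [Dp_neg, Dm_neg, Finset.sum_neg_distrib]

lemma lap_add (f g : St d l → ℝ) : lap (f + g) = lap f + lap g := by
  unfold lap; simp only [Dp_add, Dm_add, Finset.sum_add_distrib]

lemma lap_smul (c : ℝ) (f : St d l → ℝ) : lap (c • f) = c • lap f := by
  unfold lap; simp only [Dp_smul, Dm_smul, Finset.smul_sum]

lemma lap_sum {ι : Type*} (s : Finset ι) (f : ι → St d l → ℝ) :
    lap (∑ k ∈ s, f k) = ∑ k ∈ s, lap (f k) := by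
  unfold lap
  simp only [Dp_sum, Dm_sum]
  exact Finset.sum_comm

lemma cx_asy {u : Fm d l} (hu : Asy u) : Asy (cx u) := fun j k => by
  unfold cx
  rw [hu j k, lap_neg, d1_asy _ j k]
  abel

lemma ipF_comm (f g : Fm d l) : ipF f g = ipF g f := by
  unfold ipF
  simp only [ip2_comm]

lemma ipF_d1 {f : Fm d l} (hf : Asy f) (a : Fin d → St d l → ℝ) :
    ipF f (d1 a) = ∑ j, ∑ k, ip2 (f j k) (Dp j (a k)) := by
  unfold ipF d1
  have h1 : ∑ j, ∑ k, ip2 (f j k) (Dp j (a k) - Dp k (a j)) =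
      ∑ j, ∑ k, ip2 (f j k) (Dp j (a k)) - ∑ j, ∑ k, ip2 (f j k) (Dp k (a j)) := by
    simp only [ip2_sub_right, Finset.sum_sub_distrib]
  have h2 : ∑ j, ∑ k, ip2 (f j k) (Dp k (a j)) = -∑ j, ∑ k, ip2 (f j k) (Dp j (a k)) := by
    rw [Finset.sum_comm, ← Finset.sum_neg_distrib]
    refine Finset.sum_congr rfl fun k _ => ?_
    rw [← Finset.sum_neg_distrib]
    refine Finset.sum_congr rfl fun j _ => ?_
    rw [hf j k, ip2_neg_left]
  rw [h1, h2]; ring

lemma ipF_ds {f : Fm d l} (hf : Asy f) (a : Fin d → St d l → ℝ) :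
    ipF f (d1 a) = ∑ k, ip2 (ds2 f k) (a k) := by
  rw [ipF_d1 hf, Finset.sum_comm]
  refine Finset.sum_congr rfl fun k _ => ?_
  unfold ds2
  rw [ip2_sum_left]
  exact Finset.sum_congr rfl fun j _ => by rw [ip2_Dm]

lemma cx_eq {u : Fm d l} (hu : Asy u) (j k : Fin d) :
    cx u j k = ∑ i, Dm i (Dp i (u j k) + Dp j (u k i) + Dp k (u i j)) := by
  unfold cx lap d1 ds2
  rw [Dp_sum, Dp_sum]
  have h1 : ∑ i, Dp j (Dm i (u i k)) = -∑ i, Dm i (Dp j (u k i)) := by
    rw [← Finset.sum_neg_distrib]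
    refine Finset.sum_congr rfl fun i _ => ?_
    rw [Dp_Dm, hu i k, Dp_neg, Dm_neg]
  have h2 : ∑ i, Dp k (Dm i (u i j)) = ∑ i, Dm i (Dp k (u i j)) :=
    Finset.sum_congr rfl fun i _ => Dp_Dm _ _ _
  rw [h1, h2]
  simp only [Dm_add, Finset.sum_add_distrib]
  abel

/-- exact and coexact forms are orthogonal -/
lemma cx_orth {u : Fm d l} (hu : Asy u) (a : Fin d → St d l → ℝ) : ipF (cx u) (d1 a) = 0 := by
  rw [ipF_d1 (cx_asy hu)]
  obtain ⟨g, hg⟩ : ∃ g : Fin d → Fin d → Fin d → St d l → ℝ,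
    g = fun i j k => Dp i (u j k) + Dp j (u k i) + Dp k (u i j) := ⟨_, rfl⟩
  have hga : ∀ i j k, g j i k = -g i j k := fun i j k => by
    rw [hg]
    simp only
    rw [hu i k, hu k j, hu j i, Dp_neg, Dp_neg, Dp_neg]
    abel
  have h1 : ∀ j k, ip2 (cx u j k) (Dp j (a k)) = ∑ i, ip2 (g i j k) (Dp i (Dp j (a k))) := by
    intro j k
    rw [cx_eq hu, ip2_sum_left]
    refine Finset.sum_congr rfl fun i _ => ?_
    rw [ip2_Dm, hg]
  rw [Finset.sum_congr rfl fun j _ => Finset.sum_congr rfl fun k _ => h1 j k]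
  have h2 : ∑ j, ∑ k, ∑ i, ip2 (g i j k) (Dp i (Dp j (a k))) =
      ∑ k, ∑ i, ∑ j, ip2 (g i j k) (Dp i (Dp j (a k))) := by
    rw [Finset.sum_comm]
    refine Finset.sum_congr rfl fun k _ => ?_
    rw [Finset.sum_comm]
  rw [h2]
  refine Finset.sum_eq_zero fun k _ => ?_
  obtain ⟨S, hS⟩ : ∃ S, S = ∑ i, ∑ j, ip2 (g i j k) (Dp i (Dp j (a k))) := ⟨_, rfl⟩
  have h3 : S = -S := by
    calc S = ∑ j, ∑ i, ip2 (g i j k) (Dp i (Dp j (a k))) := by rw [hS, Finset.sum_comm]
      _ = ∑ j, ∑ i, -ip2 (g j i k) (Dp j (Dp i (a k))) := by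
          refine Finset.sum_congr rfl fun j _ => Finset.sum_congr rfl fun i _ => ?_
          rw [hga j i k, ip2_neg_left, Dp_comm]
      _ = -S := by rw [hS]; simp only [Finset.sum_neg_distrib]
  rw [← hS]; linarith

lemma ipF_add_left (f g h : Fm d l) : ipF (f + g) h = ipF f h + ipF g h := by
  unfold ipF
  simp only [Pi.add_apply, ip2_add_left, Finset.sum_add_distrib]; ring

lemma ipF_sub_left (f g h : Fm d l) : ipF (f - g) h = ipF f h - ipF g h := by
  unfold ipF
  simp only [Pi.sub_apply, ip2_sub_left, Finset.sum_sub_distrib]; ring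

lemma ipF_smul_left (c : ℝ) (f h : Fm d l) : ipF (c • f) h = c * ipF f h := by
  unfold ipF
  simp only [Pi.smul_apply, ip2_smul_left, ← Finset.mul_sum]; ring

lemma ipF_self_nonneg (f : Fm d l) : 0 ≤ ipF f f := by
  unfold ipF ip2
  refine mul_nonneg (by norm_num) (Finset.sum_nonneg fun j _ => Finset.sum_nonneg fun k _ =>
    Finset.sum_nonneg fun x _ => mul_self_nonneg _)

lemma cx_orth_cx {u w : Fm d l} (hu : Asy u) : ipF (cx u) (d1 (ds2 w)) = 0 := cx_orth hu _

/-! ### the lazy walk -/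

lemma lap_apply (f : St d l → ℝ) (x : St d l) :
    lap f x = ∑ i, (2 * f x - f (x + eT i) - f (x - eT i)) := by
  unfold lap
  rw [Finset.sum_apply]
  refine Finset.sum_congr rfl fun i _ => ?_
  unfold Dm Dp
  rw [sub_add_cancel]; ring

lemma Pl_apply (hd : 0 < d) (f : St d l → ℝ) (x : St d l) :
    Pl f x = 1 / 2 * f x + (1 / (4 * d) : ℝ) * ∑ i, (f (x + eT i) + f (x - eT i)) := by
  unfold Pl
  have hd0 : (d : ℝ) ≠ 0 := by positivity
  rw [Pi.sub_apply, Pi.smul_apply, smul_eq_mul, lap_apply]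
  have h1 : ∑ i : Fin d, (2 * f x - f (x + eT i) - f (x - eT i)) =
      2 * d * f x - ∑ i, (f (x + eT i) + f (x - eT i)) := by
    have h2 : ∀ i : Fin d, 2 * f x - f (x + eT i) - f (x - eT i) =
      2 * f x - (f (x + eT i) + f (x - eT i)) := fun i => by ring
    rw [Finset.sum_congr rfl fun i _ => h2 i, Finset.sum_sub_distrib, Finset.sum_const,
      Finset.card_univ, Fintype.card_fin, nsmul_eq_mul]
    ring
  rw [h1]
  field_simp
  ring

lemma lap_Pl (f : St d l → ℝ) : lap (Pl f) = Pl (lap f) := by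
  unfold Pl
  rw [sub_eq_add_neg, lap_add, lap_neg, lap_smul, ← sub_eq_add_neg]

lemma Plk_zero (f : St d l → ℝ) : Plk 0 f = f := rfl

lemma Plk_succ (k : ℕ) (f : St d l → ℝ) : Plk (k + 1) f = Pl (Plk k f) :=
  Function.iterate_succ_apply' _ _ _

lemma lap_uK (K : ℕ) (f : St d l → ℝ) : lap (uK K f) = f - Plk K f := by
  unfold uK
  rw [lap_smul, lap_sum, Finset.smul_sum]
  induction K with
  | zero => simp [Plk_zero]
  | succ K ih =>
    rw [Finset.sum_range_succ, ih, Plk_succ]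
    unfold Pl
    abel

lemma Pl_neg (f : St d l → ℝ) : Pl (-f) = -Pl f := by
  unfold Pl; rw [lap_neg, smul_neg]; abel

lemma Plk_neg (k : ℕ) (f : St d l → ℝ) : Plk k (-f) = -Plk k f := by
  induction k with
  | zero => rfl
  | succ k ih => rw [Plk_succ, Plk_succ, ih, Pl_neg]

lemma uK_neg (K : ℕ) (f : St d l → ℝ) : uK K (-f) = -uK K f := by
  unfold uK
  simp only [Plk_neg, Finset.sum_neg_distrib, smul_neg]

/-! ### commutation -/

lemma Plk_zero' (f : St d l → ℝ) : Plk 0 f = f := rfl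

lemma Pl_add (f g : St d l → ℝ) : Pl (f + g) = Pl f + Pl g := by
  unfold Pl; rw [lap_add, smul_add]; abel

lemma Pl_smul (c : ℝ) (f : St d l → ℝ) : Pl (c • f) = c • Pl f := by
  unfold Pl; rw [lap_smul, smul_sub, smul_comm]

lemma Pl_sub (f g : St d l → ℝ) : Pl (f - g) = Pl f - Pl g := by
  rw [sub_eq_add_neg, Pl_add, Pl_neg, ← sub_eq_add_neg]

lemma lap_Dp (i : Fin d) (f : St d l → ℝ) : lap (Dp i f) = Dp i (lap f) := by
  unfold lap
  rw [Dp_sum]
  refine Finset.sum_congr rfl fun j _ => ?_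
  rw [Dp_comm j i f, Dp_Dm]

lemma lap_Dm (i : Fin d) (f : St d l → ℝ) : lap (Dm i f) = Dm i (lap f) := by
  unfold lap
  rw [Dm_sum]
  refine Finset.sum_congr rfl fun j _ => ?_
  rw [Dp_Dm, Dm_comm]

lemma Pl_Dp (i : Fin d) (f : St d l → ℝ) : Pl (Dp i f) = Dp i (Pl f) := by
  unfold Pl
  rw [Dp_sub, Dp_smul, lap_Dp]

lemma Pl_Dm (i : Fin d) (f : St d l → ℝ) : Pl (Dm i f) = Dm i (Pl f) := by
  unfold Pl
  rw [Dm_sub, Dm_smul, lap_Dm]

lemma Plk_add (k : ℕ) (f g : St d l → ℝ) : Plk k (f + g) = Plk k f + Plk k g := by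
  induction k with
  | zero => rfl
  | succ k ih => rw [Plk_succ, Plk_succ, Plk_succ, ih, Pl_add]

lemma Plk_sub (k : ℕ) (f g : St d l → ℝ) : Plk k (f - g) = Plk k f - Plk k g := by
  induction k with
  | zero => rfl
  | succ k ih => rw [Plk_succ, Plk_succ, Plk_succ, ih, Pl_sub]

lemma Plk_smul (k : ℕ) (c : ℝ) (f : St d l → ℝ) : Plk k (c • f) = c • Plk k f := by
  induction k with
  | zero => rfl
  | succ k ih => rw [Plk_succ, Plk_succ, ih, Pl_smul]

lemma Plk_zero_fun (k : ℕ) : Plk k (0 : St d l → ℝ) = 0 := by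
  have h := Plk_smul k (0 : ℝ) (0 : St d l → ℝ)
  rw [zero_smul, zero_smul] at h
  exact h

lemma Plk_sum {ι : Type*} [DecidableEq ι] (k : ℕ) (s : Finset ι) (f : ι → St d l → ℝ) :
    Plk k (∑ i ∈ s, f i) = ∑ i ∈ s, Plk k (f i) := by
  induction s using Finset.induction_on with
  | empty => rw [Finset.sum_empty, Finset.sum_empty, Plk_zero_fun]
  | insert a s ha ih => rw [Finset.sum_insert ha, Finset.sum_insert ha, Plk_add, ih]

lemma Plk_Dp (k : ℕ) (i : Fin d) (f : St d l → ℝ) : Plk k (Dp i f) = Dp i (Plk k f) := by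
  induction k with
  | zero => rfl
  | succ k ih => rw [Plk_succ, Plk_succ, ih, Pl_Dp]

lemma Plk_Dm (k : ℕ) (i : Fin d) (f : St d l → ℝ) : Plk k (Dm i f) = Dm i (Plk k f) := by
  induction k with
  | zero => rfl
  | succ k ih => rw [Plk_succ, Plk_succ, ih, Pl_Dm]

lemma Plk_Plk (k m : ℕ) (f : St d l → ℝ) : Plk k (Plk m f) = Plk (k + m) f := by
  unfold Plk
  rw [Function.iterate_add_apply]

lemma Plk_d1ds2 (k : ℕ) (w : Fm d l) (a b : Fin d) :
    Plk k (d1 (ds2 w) a b) = d1 (ds2 fun p q => Plk k (w p q)) a b := by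
  unfold d1 ds2
  rw [Plk_sub, Plk_Dp, Plk_Dp, Plk_sum, Plk_sum]
  simp only [Plk_Dm]

lemma ip2_lap (f g : St d l → ℝ) : ip2 (lap f) g = ip2 f (lap g) := by
  unfold lap
  rw [ip2_sum_left, ip2_sum_right]
  refine Finset.sum_congr rfl fun i _ => ?_
  rw [ip2_Dm, ip2_Dp]

lemma ip2_smul_right (c : ℝ) (f h : St d l → ℝ) : ip2 f (c • h) = c * ip2 f h := by
  rw [ip2_comm, ip2_smul_left, ip2_comm]

lemma ip2_Pl (f g : St d l → ℝ) : ip2 (Pl f) g = ip2 f (Pl g) := by
  unfold Pl
  rw [ip2_sub_left, ip2_sub_right, ip2_smul_left, ip2_smul_right, ip2_lap]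

lemma ip2_Plk (k : ℕ) (f g : St d l → ℝ) : ip2 (Plk k f) g = ip2 f (Plk k g) := by
  induction k generalizing f g with
  | zero => rfl
  | succ k ih =>
    rw [Plk_succ k f, ip2_Pl, ih]
    have h : Plk (k + 1) g = Plk k (Pl g) := by
      unfold Plk
      rw [Function.iterate_succ_apply]
    rw [h]

lemma ipF_Plk (k : ℕ) (f g : Fm d l) :
    ipF f (fun p q => Plk k (g p q)) = ipF (fun p q => Plk k (f p q)) g := by
  unfold ipF
  simp only [ip2_Plk]

lemma ipF_sub_right (f g h : Fm d l) : ipF f (g - h) = ipF f g - ipF f h := by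
  rw [ipF_comm, ipF_sub_left, ipF_comm g, ipF_comm h]

lemma TK_asy (K : ℕ) (f : Fm d l) : Asy (TK K f) := d1_asy _

lemma el_asy (a b : Fin d) (y : St d l) : Asy (el a b y) := fun p q => by
  funext x
  simp only [el, Pi.neg_apply]
  have h1 : (p = a ∧ q = b ∧ x = y) ↔ (q = b ∧ p = a ∧ x = y) := by tauto
  have h2 : (p = b ∧ q = a ∧ x = y) ↔ (q = a ∧ p = b ∧ x = y) := by tauto
  simp only [h1, h2]
  ring

lemma ipF_TK_TK (K : ℕ) {f g : Fm d l} (hg : Asy g) :
    ipF (TK K f) (TK K g) =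
      ipF (TK K f) g - ipF (fun p q => Plk K (TK K f p q)) g := by
  obtain ⟨u, hu⟩ : ∃ u : Fm d l, u = fun p q => uK K (g p q) := ⟨_, rfl⟩
  have hua : Asy u := fun p q => by
    rw [hu]
    simp only
    rw [hg p q, uK_neg]
  have h1 : TK K g = (g - fun p q => Plk K (g p q)) - cx u := by
    funext p q
    simp only [Pi.sub_apply]
    unfold cx TK
    rw [hu]
    simp only
    rw [lap_uK]
    abel
  have h2 : ipF (TK K f) (cx u) = 0 := by
    rw [ipF_comm]
    exact cx_orth hua _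
  rw [h1, ipF_sub_right, ipF_sub_right, h2, ipF_Plk, sub_zero]

lemma ipF_el {F : Fm d l} (hF : Asy F) (a b : Fin d) (y : St d l) :
    ipF F (el a b y) = F a b y := by
  unfold ipF ip2 el
  have h1 : ∀ p q : Fin d, ∑ x, F p q x * ((if p = a ∧ q = b ∧ x = y then (1 : ℝ) else 0) -
      (if p = b ∧ q = a ∧ x = y then 1 else 0)) =
      (if p = a ∧ q = b then F p q y else 0) - (if p = b ∧ q = a then F p q y else 0) := by
    intro p q
    simp only [mul_sub, Finset.sum_sub_distrib]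
    congr 1
    · by_cases h : p = a ∧ q = b
      · rw [if_pos h]
        rw [Finset.sum_eq_single y]
        · rw [if_pos ⟨h.1, h.2, rfl⟩, mul_one]
        · intro x _ hx
          rw [if_neg (fun h' => hx h'.2.2), mul_zero]
        · intro hy
          exact absurd (Finset.mem_univ y) hy
      · rw [if_neg h]
        refine Finset.sum_eq_zero fun x _ => ?_
        rw [if_neg (fun h' => h ⟨h'.1, h'.2.1⟩), mul_zero]
    · by_cases h : p = b ∧ q = a
      · rw [if_pos h]
        rw [Finset.sum_eq_single y]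
        · rw [if_pos ⟨h.1, h.2, rfl⟩, mul_one]
        · intro x _ hx
          rw [if_neg (fun h' => hx h'.2.2), mul_zero]
        · intro hy
          exact absurd (Finset.mem_univ y) hy
      · rw [if_neg h]
        refine Finset.sum_eq_zero fun x _ => ?_
        rw [if_neg (fun h' => h ⟨h'.1, h'.2.1⟩), mul_zero]
  simp only [h1, Finset.sum_sub_distrib]
  have h2 : ∀ c e : Fin d, ∑ p, ∑ q, (if p = c ∧ q = e then F p q y else 0) = F c e y := by
    intro c e
    rw [Finset.sum_eq_single c]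
    · rw [Finset.sum_eq_single e]
      · rw [if_pos ⟨rfl, rfl⟩]
      · intro q _ hq
        rw [if_neg (fun h => hq h.2)]
      · intro h
        exact absurd (Finset.mem_univ e) h
    · intro p _ hp
      refine Finset.sum_eq_zero fun q _ => ?_
      rw [if_neg (fun h => hp h.1)]
    · intro h
      exact absurd (Finset.mem_univ c) h
  rw [h2, h2, hF b a]
  simp only [Pi.neg_apply]
  ring

/-! ### translations -/

/-- translation -/
def tr (Y : St d l) (F : St d l → ℝ) : St d l → ℝ := fun x => F (x - Y)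

lemma Dp_tr (i : Fin d) (Y : St d l) (F : St d l → ℝ) : Dp i (tr Y F) = tr Y (Dp i F) := by
  funext x
  unfold Dp tr
  rw [add_sub_right_comm]

lemma Dm_tr (i : Fin d) (Y : St d l) (F : St d l → ℝ) : Dm i (tr Y F) = tr Y (Dm i F) := by
  funext x
  unfold Dm tr
  rw [sub_right_comm]

lemma lap_tr (Y : St d l) (F : St d l → ℝ) : lap (tr Y F) = tr Y (lap F) := by
  unfold lap
  simp only [Dp_tr, Dm_tr]
  funext x
  simp only [Finset.sum_apply, tr]

lemma Pl_tr (Y : St d l) (F : St d l → ℝ) : Pl (tr Y F) = tr Y (Pl F) := by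
  unfold Pl
  rw [lap_tr]
  funext x
  simp only [Pi.sub_apply, Pi.smul_apply, tr]

lemma Plk_tr (k : ℕ) (Y : St d l) (F : St d l → ℝ) : Plk k (tr Y F) = tr Y (Plk k F) := by
  induction k with
  | zero => rfl
  | succ k ih => rw [Plk_succ, Plk_succ, ih, Pl_tr]

/-- the unit mass at a point -/
def dl (Y : St d l) : St d l → ℝ := fun x => if x = Y then 1 else 0

lemma dl_eq (Y : St d l) : dl Y = tr Y (fun x : St d l => if x = 0 then (1 : ℝ) else 0) := by
  funext x
  simp only [dl, tr, sub_eq_zero]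

lemma pk_even (d k : ℕ) (z : Fin d → ℤ) : pk d k (-z) = pk d k z := by
  induction k generalizing z with
  | zero => simp [pk]
  | succ k ih =>
    simp only [pk]
    rw [ih z]
    congr 2
    refine Finset.sum_congr rfl fun i _ => ?_
    have h1 : -z + Pi.single i 1 = -(z - Pi.single i 1) := by abel
    have h2 : -z - Pi.single i 1 = -(z + Pi.single i 1) := by abel
    rw [h1, h2, ih, ih, add_comm]

lemma gK_even (d K : ℕ) (z : Fin d → ℤ) : gK d K (-z) = gK d K z := by
  unfold gK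
  simp only [pk_even]

/-- the cast -/
def cs (z : Fin d → ℤ) : St d l := fun i => (z i : ZMod l)

lemma cs_sub (z w : Fin d → ℤ) : (cs (z - w) : St d l) = cs z - cs w := by
  funext i
  simp [cs]

lemma cs_add (z w : Fin d → ℤ) : (cs (z + w) : St d l) = cs z + cs w := by
  funext i
  simp [cs]

lemma cs_single (i : Fin d) : (cs (Pi.single i 1) : St d l) = eT i := by
  funext j
  unfold cs eT
  by_cases h : j = i
  · subst h
    simp
  · simp [Pi.single_eq_of_ne h]

lemma Plk_dl (hB : S_B1) (hd : 1 ≤ d) (k : ℕ) (w y : Fin d → ℤ) (h : ∀ i, |w i - y i| + k < l) :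
    Plk k (dl (cs y : St d l)) (cs w) = pk d k (w - y) := by
  rw [dl_eq, Plk_tr]
  unfold tr
  rw [← cs_sub]
  exact hB d l k hd (w - y) h

/-- the function `φ` -/
def phi (K : ℕ) (Y : St d l) : St d l → ℝ := uK K (dl Y) - Plk K (uK K (dl Y))

lemma phi_apply (hB : S_B1) (hd : 1 ≤ d) (K : ℕ) (w y : Fin d → ℤ)
    (h : ∀ i, |w i - y i| + 2 * K < l) :
    phi K (cs y : St d l) (cs w) = gK d K (w - y) := by
  unfold phi uK gK
  rw [Plk_smul, ← smul_sub, Plk_sum, ← Finset.sum_sub_distrib, Pi.smul_apply, smul_eq_mul,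
    Finset.sum_apply]
  congr 1
  refine Finset.sum_congr rfl fun k hk => ?_
  rw [Finset.mem_range] at hk
  rw [Pi.sub_apply, Plk_Plk, Plk_dl hB hd, Plk_dl hB hd]
  · intro i
    have := h i
    push_cast
    omega
  · intro i
    have := h i
    omega

lemma DpDm_phi (hB : S_B1) (hd : 1 ≤ d) (K : ℕ) (y y' : Fin d → ℤ)
    (h : ∀ i, |y i - y' i| + 2 * K + 2 < l) (c i : Fin d) :
    Dp c (Dm i (phi K (cs y : St d l))) (cs y') = -DD i c (gK d K) (y - y') := by
  have hs : ∀ a : Fin d → ℤ, (∀ j, |a j| ≤ 1) →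
      phi K (cs y : St d l) (cs (y' + a)) = gK d K ((y - y') - a) := by
    intro a ha
    rw [phi_apply hB hd]
    · rw [← gK_even]
      congr 1
      abel
    · intro j
      have h1 := h j
      have h2 := ha j
      have h3 : |(y' + a) j - y j| ≤ |y j - y' j| + |a j| := by
        have h4 : (y' + a) j - y j = -(y j - y' j) + a j := by
          simp only [Pi.add_apply]; ring
        rw [h4]
        refine (abs_add_le _ _).trans ?_
        rw [abs_neg]
      omega
  have s0 : ∀ j, |(0 : Fin d → ℤ) j| ≤ 1 := fun j => by simp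
  have s1 : ∀ e : Fin d, ∀ j, |(Pi.single e 1 : Fin d → ℤ) j| ≤ 1 := fun e j => by
    by_cases hj : j = e
    · subst hj; simp
    · simp [Pi.single_eq_of_ne hj]
  have s2 : ∀ j, |(-Pi.single i 1 : Fin d → ℤ) j| ≤ 1 := fun j => by
    rw [Pi.neg_apply, abs_neg]
    exact s1 i j
  have s3 : ∀ j, |(Pi.single c 1 - Pi.single i 1 : Fin d → ℤ) j| ≤ 1 := fun j => by
    rw [Pi.sub_apply]
    by_cases hj : j = c
    · by_cases hi : j = i
      · rw [← hj, ← hi]; simp
      · rw [hj] at hi ⊢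
        rw [Pi.single_eq_same, Pi.single_eq_of_ne hi]; simp
    · rw [Pi.single_eq_of_ne hj, zero_sub, abs_neg]
      exact s1 i j
  have e0 := hs 0 s0
  have e1 := hs _ (s1 c)
  have e2 := hs _ s2
  have e3 := hs _ s3
  unfold Dp Dm DD
  have a1 : (cs y' : St d l) + eT c - eT i = cs (y' + (Pi.single c 1 - Pi.single i 1)) := by
    rw [cs_add, cs_sub, cs_single, cs_single]; abel
  have a2 : (cs y' : St d l) + eT c = cs (y' + Pi.single c 1) := by
    rw [cs_add, cs_single]
  have a3 : (cs y' : St d l) - eT i = cs (y' + -Pi.single i 1) := by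
    rw [← sub_eq_add_neg, cs_sub, cs_single]
  have a4 : (cs y' : St d l) = cs (y' + 0) := by rw [add_zero]
  rw [a1, a2, a3, e3, e1, e2]
  conv_lhs => rw [a4, e0]
  have b1 : y - y' - (Pi.single c 1 - Pi.single i 1) = y - y' + Pi.single i 1 - Pi.single c 1 := by abel
  have b2 : y - y' - -Pi.single i 1 = y - y' + Pi.single i 1 := by abel
  rw [b1, b2, sub_zero]
  ring

theorem t_B2 (hB : S_B1) : S_B2 := by
  intro d l K _ hd j k a b y y' h
  rw [ipF_TK_TK K (el_asy a b _)]
  have hPa : Asy (fun p q => Plk K (TK K (el j k fun i => (y i : ZMod l)) p q)) := fun p q => by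
    simp only
    rw [TK_asy K _ p q, Plk_neg]
  rw [ipF_el (TK_asy K _), ipF_el hPa]
  -- the coefficients
  obtain ⟨s, hs⟩ : ∃ s : Fin d → Fin d → ℝ, s = fun p q =>
    (if p = j ∧ q = k then 1 else 0) - (if p = k ∧ q = j then 1 else 0) := ⟨_, rfl⟩
  have hf : ∀ p q, el j k (fun i => (y i : ZMod l)) p q = s p q • dl (cs y : St d l) := by
    intro p q
    funext x
    have hcs : (cs y : St d l) = fun i => (y i : ZMod l) := rfl
    rw [hs, hcs]
    simp only [el, dl, Pi.smul_apply, smul_eq_mul]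
    by_cases hx : x = fun i => (y i : ZMod l)
    · simp [hx]
    · simp [hx]
  have hu : ∀ p q, uK K (el j k (fun i => (y i : ZMod l)) p q) = s p q • uK K (dl (cs y : St d l)) := by
    intro p q
    rw [hf]
    unfold uK
    rw [smul_comm]
    congr 1
    rw [Finset.smul_sum]
    exact Finset.sum_congr rfl fun m _ => Plk_smul _ _ _
  have hT : TK K (el j k fun i => (y i : ZMod l)) a b =
      d1 (ds2 fun p q => s p q • uK K (dl (cs y : St d l))) a b := by
    unfold TK
    simp only [hu]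
  have hP : Plk K (TK K (el j k fun i => (y i : ZMod l)) a b) =
      d1 (ds2 fun p q => s p q • Plk K (uK K (dl (cs y : St d l)))) a b := by
    rw [hT, Plk_d1ds2]
    simp only [Plk_smul]
  have hV : ∀ F : St d l → ℝ, ∀ x, d1 (ds2 fun p q => s p q • F) a b x =
      ∑ i, s i b * Dp a (Dm i F) x - ∑ i, s i a * Dp b (Dm i F) x := by
    intro F x
    unfold d1 ds2
    rw [Dp_sum, Dp_sum, Pi.sub_apply, Finset.sum_apply, Finset.sum_apply]
    simp only [Dm_smul, Dp_smul, Pi.smul_apply, smul_eq_mul]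
  have hlin : ∀ c i : Fin d, ∀ x, Dp c (Dm i (uK K (dl (cs y : St d l)))) x -
      Dp c (Dm i (Plk K (uK K (dl (cs y : St d l))))) x = Dp c (Dm i (phi K (cs y : St d l))) x := by
    intro c i x
    unfold phi
    rw [Dm_sub, Dp_sub, Pi.sub_apply]
  rw [hP, hT]
  rw [hV, hV]
  have hD : ∀ c i : Fin d, Dp c (Dm i (phi K (cs y : St d l))) (fun i => (y' i : ZMod l)) =
      -DD i c (gK d K) (y - y') := fun c i => DpDm_phi hB hd K y y' h c i
  have e1 : (∑ i, s i b * Dp a (Dm i (uK K (dl (cs y : St d l)))) (fun i => (y' i : ZMod l)) -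
      ∑ i, s i a * Dp b (Dm i (uK K (dl (cs y : St d l)))) (fun i => (y' i : ZMod l))) -
      (∑ i, s i b * Dp a (Dm i (Plk K (uK K (dl (cs y : St d l))))) (fun i => (y' i : ZMod l)) -
      ∑ i, s i a * Dp b (Dm i (Plk K (uK K (dl (cs y : St d l))))) (fun i => (y' i : ZMod l))) =
      ∑ i, s i b * -DD i a (gK d K) (y - y') - ∑ i, s i a * -DD i b (gK d K) (y - y') := by
    have e2 : ∀ c e : Fin d, ∑ i, s i e * -DD i c (gK d K) (y - y') =
        ∑ i, s i e * Dp c (Dm i (uK K (dl (cs y : St d l)))) (fun i => (y' i : ZMod l)) -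
        ∑ i, s i e * Dp c (Dm i (Plk K (uK K (dl (cs y : St d l))))) (fun i => (y' i : ZMod l)) := by
      intro c e
      rw [← Finset.sum_sub_distrib]
      refine Finset.sum_congr rfl fun i _ => ?_
      rw [← mul_sub, hlin, hD]
    rw [e2, e2]
    ring
  rw [e1]
  have e3 : ∀ c e : Fin d, ∑ i, s i e * -DD i c (gK d K) (y - y') =
      (if k = e then -DD j c (gK d K) (y - y') else 0) -
        (if j = e then -DD k c (gK d K) (y - y') else 0) := by
    intro c e
    rw [hs]
    simp only [sub_mul, Finset.sum_sub_distrib]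
    congr 1
    · rw [Finset.sum_eq_single j]
      · by_cases h1 : e = k
        · simp [h1]
        · have h2 : ¬ k = e := fun h3 => h1 h3.symm
          simp [h1, h2]
      · intro i _ hi
        rw [if_neg (fun h3 => hi h3.1), zero_mul]
      · intro h3
        exact absurd (Finset.mem_univ j) h3
    · rw [Finset.sum_eq_single k]
      · by_cases h1 : e = j
        · simp [h1]
        · have h2 : ¬ j = e := fun h3 => h1 h3.symm
          simp [h1, h2]
      · intro i _ hi
        rw [if_neg (fun h3 => hi h3.1), zero_mul]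
      · intro h3
        exact absurd (Finset.mem_univ k) h3
  rw [e3, e3]
  unfold mx
  split_ifs <;> ring

end

end Pool.Agent.W314.SCH
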